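import Mathlib
import Pool.Agent.H74.Degen2

set_option autoImplicit false

namespace Pool.Agent.Results.MP_3122b6_ag.PrimePersist

open Finset MvPolynomial Pool.Agent.H74.Degen Pool.Agent.Results.MP_c79496_ag.PrimePmd

theorem span_eq (k : Type) [Field k] {n : ℕ} (E : Finset (Finset (Fin n))) (d : ℕ) :
    {g : MvPolynomial (Fin n × Fin d) k | ∃ e ∈ E, g = ∑ l : Fin d, ∏ i ∈ e, X (i, l)}
      = fe k (univ : Finset (Fin d)) '' (E : Set (Finset (Fin n))) := by
  ext g
  simp only [Set.mem_ofPred_eq, Set.mem_image, mem_coe, fe, mono, eq_comm]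

/-- Primeness of the LSS ideal of a clutter hypergraph persists from `d` to `d + 1`. -/
theorem result (k : Type) [Field k] (n : ℕ) (E : Finset (Finset (Fin n)))
    (hne : ∀ e ∈ E, e.Nonempty) (hcl : ∀ e ∈ E, ∀ e' ∈ E, e ⊆ e' → e = e')
    (d : ℕ) (hd : 1 ≤ d)
    (hP : (Ideal.span {g : MvPolynomial (Fin n × Fin d) k |
      ∃ e ∈ E, g = ∑ l : Fin d, ∏ i ∈ e, X (i, l)}).IsPrime) :
    (Ideal.span {g : MvPolynomial (Fin n × Fin (d + 1)) k |
      ∃ e ∈ E, g = ∑ l : Fin (d + 1), ∏ i ∈ e, X (i, l)}).IsPrime := by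
  rw [span_eq] at hP ⊢
  set I := Ideal.span (fe k (univ : Finset (Fin d)) '' (E : Set (Finset (Fin n)))) with hI
  let K := FractionRing (MvPolynomial (Fin n) (MvPolynomial (Fin n × Fin d) k ⧸ I))
  let α : MvPolynomial (Fin n) (MvPolynomial (Fin n × Fin d) k ⧸ I) →+* K := algebraMap _ _
  have hα : Function.Injective α :=
    IsFractionRing.injective (MvPolynomial (Fin n) (MvPolynomial (Fin n × Fin d) k ⧸ I)) K
  let β : MvPolynomial (Fin n × Fin d) k →+* K := α.comp (C.comp (Ideal.Quotient.mk I))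
  have hβ : ∀ x, β x = 0 ↔ x ∈ I := by
    intro x
    rw [← Ideal.Quotient.eq_zero_iff_mem]
    exact (map_eq_zero_iff α hα).trans C_eq_zero
  let ι0 : MvPolynomial (Fin n × Fin d) k →+* MvPolynomial (Fin n × Fin (d + 1)) k :=
    eval₂Hom C (fun p => X (p.1, p.2.castSucc))
  let j : Finset (Fin n) → MvPolynomial (Fin n × Fin (d + 1)) k := fun e => ι0 (fe k univ e)
  have hj : ∀ e, j e = ∑ l : Fin d, mono k e l.castSucc := by
    intro e
    simp [j, ι0, fe, mono]
  have hf : ∀ e, fe k univ e = j e + mono k e (Fin.last d) := by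
    intro e
    rw [hj, fe, Fin.sum_univ_castSucc]
  obtain ⟨Y, hY1, hY2⟩ := solve E (PowerSeries.constantCoeff (R := K))
    (fun x hx => PowerSeries.isUnit_iff_constantCoeff.2 (Ne.isUnit hx)) (fun p => β (X p))
    (fun e => -(PowerSeries.C (∏ i ∈ e, α (X i)) * PowerSeries.X ^ e.card)) (fun e he => by
      have := (hβ (fe k univ e)).2 (Ideal.subset_span ⟨e, he, rfl⟩)
      simp only [fe, mono, map_sum, map_prod] at this
      rw [this]
      simp [(hne e he).card_ne_zero])
    (fun p => PowerSeries.C (β (X p))) (fun p => by simp) hne (fun v => by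
      obtain ⟨lam⟩ : Nonempty ((E.filter (v ∈ ·)) ↪ Fin d) :=
        Function.Embedding.nonempty_of_card_le (by
          rw [Fintype.card_fin, Fintype.card_coe]; exact deg_le E hcl hne hd hP v)
      refine ⟨lam, fun h => minor_not_mem (k := k) E hcl hne v
        (fun a : E.filter (v ∈ ·) => (a : Finset (Fin n))) Subtype.val_injective
        (fun a => (mem_filter.1 a.2).1) (fun a => (mem_filter.1 a.2).2) lam lam.injective ?_⟩
      rw [← hI, ← hβ, RingHom.map_det, ← h]
      congr 1
      ext a b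
      simp [mono]) univ
  let ψ : MvPolynomial (Fin n × Fin (d + 1)) k →+* PowerSeries K :=
    eval₂Hom (PowerSeries.C.comp (β.comp C))
      (fun p => Fin.lastCases (PowerSeries.C (α (X p.1))) (fun l => Y (p.1, l)) p.2)
  let ρ : MvPolynomial (Fin n × Fin (d + 1)) k →+*
      MvPolynomial (Fin n) (MvPolynomial (Fin n × Fin d) k) :=
    eval₂Hom (C.comp C) (fun p => Fin.lastCases (X p.1) (fun l => C (X (p.1, l))) p.2)
  let σ : MvPolynomial (Fin n) (MvPolynomial (Fin n × Fin d) k) →+*
      MvPolynomial (Fin n × Fin (d + 1)) k := eval₂Hom ι0 (fun i => X (i, Fin.last d))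
  have h1 : σ.comp ρ = RingHom.id _ := by
    apply MvPolynomial.ringHom_ext
    · intro r; simp [σ, ρ, ι0]
    · rintro ⟨i, l⟩
      induction l using Fin.lastCases <;> simp [σ, ρ, ι0]
  have h2 : (PowerSeries.constantCoeff (R := K)).comp ψ
      = α.comp ((map (Ideal.Quotient.mk I)).comp ρ) := by
    apply MvPolynomial.ringHom_ext
    · intro r; simp [ψ, ρ, β]
    · rintro ⟨i, l⟩
      induction l using Fin.lastCases <;> simp [ψ, ρ, β, hY1]
  have hker : ∀ x, PowerSeries.constantCoeff (ψ x) = 0 →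
      x ∈ Ideal.span (j '' (E : Set (Finset (Fin n)))) := by
    intro x hx
    have h3 : ρ x ∈ RingHom.ker (map (Ideal.Quotient.mk I)) :=
      hα (((RingHom.congr_fun h2 x).symm.trans hx).trans (map_zero α).symm)
    rw [MvPolynomial.ker_map, Ideal.mk_ker] at h3
    have h4 := Ideal.mem_map_of_mem σ h3
    rw [show σ (ρ x) = x from RingHom.congr_fun h1 x, Ideal.map_map, hI, Ideal.map_span,
      Set.image_image] at h4
    convert h4 using 3
    simp [j, σ]
  let w : Fin n × Fin (d + 1) → ℕ := fun p => if p.2 = Fin.last d then 1 else 0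
  let w' : Fin n × Fin (d + 1) → ℕ := fun p => if p.2 = Fin.last d then 0 else 1
  have t1 : ∀ e, tw k w (j e) = Polynomial.C (j e) := by
    intro e
    rw [hj, map_sum, map_sum]
    apply sum_congr rfl
    intro l _
    rw [tw_mono]
    simp [w, (Fin.castSucc_lt_last l).ne]
  have t2 : ∀ e, tw k w (fe k univ e) = Polynomial.C (j e)
      + Polynomial.monomial e.card (mono k e (Fin.last d)) := by
    intro e
    rw [hf, map_add, t1, tw_mono]
    simp [w]
  let Φ : MvPolynomial (Fin n × Fin (d + 1)) k →+* PowerSeries K :=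
    (Polynomial.eval₂RingHom ψ PowerSeries.X).comp (tw k w)
  have h3 : Ideal.span (fe k univ '' (E : Set (Finset (Fin n)))) ≤ RingHom.ker Φ := by
    rw [Ideal.span_le]
    rintro _ ⟨e, he, rfl⟩
    have := hY2 e he (subset_univ e)
    simp only [SetLike.mem_coe, RingHom.mem_ker, Φ, RingHom.comp_apply, t2,
      Polynomial.coe_eval₂RingHom, Polynomial.eval₂_add, Polynomial.eval₂_C,
      Polynomial.eval₂_monomial]
    rw [hj]
    simp only [map_sum, mono, map_prod, ψ, coe_eval₂Hom, eval₂_X, Fin.lastCases_castSucc,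
      Fin.lastCases_last] at this ⊢
    rw [this, neg_add_cancel]
  have h4 : (Polynomial.eval₂RingHom (tw k w') Polynomial.X).comp (tw k w) = tw k (fun _ => 1) := by
    apply MvPolynomial.ringHom_ext
    · intro r; simp [tw]
    · rintro ⟨i, l⟩
      by_cases h : l = Fin.last d <;> simp [tw, w, w', h]
  have h5 : Ideal.span (fe k univ '' (E : Set (Finset (Fin n)))) = RingHom.ker Φ := by
    refine le_antisymm h3 (fun g hg => ?_)
    refine mem_of_approx (tw k (fun _ => 1)) _ _ (tw_eval _) (fun e _ => ⟨e.card, ?_⟩) g (fun m => ?_)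
    · rw [fe, map_sum, map_sum]
      apply sum_congr rfl
      intro l _
      rw [tw_mono]
      simp
    · obtain ⟨h, k1, k2⟩ := order_lift (tw k w) (fe k univ) j E (tw_hom w) t1 (fun e he => by
        rw [t2, Polynomial.coeff_add, Polynomial.coeff_C_zero, Polynomial.coeff_monomial,
          if_neg (hne e he).card_ne_zero, add_zero]) ψ PowerSeries.X PowerSeries.X_ne_zero
        (PowerSeries.constantCoeff (R := K)) PowerSeries.constantCoeff_X hker
        (fun g hg => h3 hg) g hg m
      refine ⟨h, k1, ?_⟩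
      have := map_dvd (Polynomial.eval₂RingHom (tw k w') Polynomial.X) k2
      rw [map_pow, Polynomial.coe_eval₂RingHom, Polynomial.eval₂_X] at this
      rwa [← h4]
  rw [h5]
  exact RingHom.ker_isPrime Φ

end Pool.Agent.Results.MP_3122b6_ag.PrimePersist
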