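import Mathlib
import Pool.Agent.H74.Degen3
import Pool.Agent.Results.MP_3122b6_ag.PrimePersist

set_option autoImplicit false

namespace Pool.Agent.Results.MP_3122b6_ag.CIPersist

open Finset MvPolynomial Pool.Agent.H74.Degen Pool.Agent.Results.MP_c79496_ag.PrimePmd
  RingTheory.Sequence

theorem const_fe {k : Type} [Field k] {n d : ℕ} (e : Finset (Fin n)) (he : e.Nonempty) :
    constantCoeff (fe k (univ : Finset (Fin d)) e) = 0 := by
  obtain ⟨i, hi⟩ := he
  rw [fe, map_sum]
  apply sum_eq_zero
  intro l _
  rw [mono, map_prod]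
  exact prod_eq_zero hi (by simp)

theorem tw_fe {k : Type} [Field k] {n d : ℕ} (e : Finset (Fin n)) :
    tw k (fun _ => 1) (fe k (univ : Finset (Fin d)) e)
      = Polynomial.monomial e.card (fe k (univ : Finset (Fin d)) e) := by
  rw [fe, map_sum, map_sum]
  apply sum_congr rfl
  intro l _
  rw [tw_mono]
  simp

theorem nzd {k : Type} [Field k] {n d : ℕ} (E : Finset (Finset (Fin n)))
    (hne : ∀ e ∈ E, e.Nonempty) (hcl : ∀ e ∈ E, ∀ e' ∈ E, e ⊆ e' → e = e') (hd : 1 ≤ d)
    (g : List (MvPolynomial (Fin n × Fin d) k))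
    (h1 : IsWeaklyRegular (MvPolynomial (Fin n × Fin d) k) g)
    (h2 : Ideal.ofList g = Ideal.span (fe k (univ : Finset (Fin d)) '' (E : Set (Finset (Fin n)))))
    (s : Finset (Finset (Fin n))) (hs : s ⊆ E) (e : Finset (Fin n)) (he : e ∈ E) (hes : e ∉ s)
    (x : MvPolynomial (Fin n × Fin d) k)
    (hx : fe k univ e * x ∈ Ideal.span (fe k (univ : Finset (Fin d)) '' (s : Set (Finset (Fin n))))) :
    x ∈ Ideal.span (fe k (univ : Finset (Fin d)) '' (s : Set (Finset (Fin n)))) := by
  let m : Ideal (MvPolynomial (Fin n × Fin d) k) := RingHom.ker constantCoeff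
  have : m.IsPrime := RingHom.ker_isPrime _
  let A := Localization.AtPrime m
  let α := algebraMap (MvPolynomial (Fin n × Fin d) k) A
  have e1 : ∀ s : Finset (Finset (Fin n)),
      Ideal.span ((fun e => α (fe k univ e)) '' (s : Set (Finset (Fin n))))
        = (Ideal.span (fe k (univ : Finset (Fin d)) '' (s : Set (Finset (Fin n))))).map α := by
    intro s
    rw [Ideal.map_span, Set.image_image]
  have h3 := local_nzd (fun e => α (fe k univ e)) E (g.map α)
    (h1.of_isLocalization A m.primeCompl) (by rw [e1, ← h2, Ideal.map_ofList]) (by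
      rw [Ideal.span_le]
      rintro _ ⟨e, he, rfl⟩
      exact (IsLocalization.AtPrime.to_map_mem_maximal_iff A m _).2 (const_fe e (hne e he)))
    (by
      intro s hs e he hes h
      let l0 : Fin d := ⟨0, hd⟩
      let φ : MvPolynomial (Fin n × Fin d) k →+* PowerSeries k :=
        eval₂Hom PowerSeries.C (fun v => if v.1 ∈ e ∧ v.2 = l0 then PowerSeries.X else 0)
      have c1 : (PowerSeries.constantCoeff (R := k)).comp φ = constantCoeff := by
        apply MvPolynomial.ringHom_ext
        · intro r; simp [φ]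
        · intro v
          simp only [φ, RingHom.comp_apply, coe_eval₂Hom, eval₂_X, constantCoeff_X]
          split_ifs <;> simp
      have c2 : ∀ y : m.primeCompl, IsUnit (φ y) := fun y =>
        PowerSeries.isUnit_iff_constantCoeff.2 (Ne.isUnit (fun h => y.2
          ((RingHom.congr_fun c1 y).symm.trans h)))
      let φ' : A →+* PowerSeries k := IsLocalization.lift c2
      have c3 : ∀ x, φ' (α x) = φ x := IsLocalization.lift_eq c2
      have c4 : ∀ e' ∈ E, e' ≠ e → φ (fe k univ e') = 0 := by
        intro e' he' h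
        obtain ⟨v, h1, h2⟩ := not_subset.1 (fun h' => h (hcl e' he' e he h'))
        rw [fe, map_sum]
        apply sum_eq_zero
        intro l' _
        rw [mono, map_prod]
        exact prod_eq_zero h1 (by simp [φ, h2])
      have c5 : φ (fe k univ e) = PowerSeries.X ^ e.card := by
        obtain ⟨v, h1⟩ := hne e he
        rw [fe, map_sum, sum_eq_single l0 _ (by simp)]
        · rw [mono, map_prod, ← prod_const]
          exact prod_congr rfl (fun i hi => by simp [φ, hi])
        · intro l' _ h
          rw [mono, map_prod]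
          exact prod_eq_zero h1 (by simp [φ, h])
      have c6 : IsLocalRing.maximalIdeal A ≤ (Ideal.span {PowerSeries.X}).comap φ' := by
        rw [← Localization.AtPrime.map_eq_maximalIdeal, Ideal.map_le_iff_le_comap]
        intro y hy
        rw [Ideal.mem_comap, Ideal.mem_comap, c3, Ideal.mem_span_singleton, PowerSeries.X_dvd_iff]
        exact (RingHom.congr_fun c1 y).trans hy
      have c7 : Ideal.span ((fun e => α (fe k univ e)) '' (E : Set (Finset (Fin n))))
          ≤ (Ideal.span {PowerSeries.X ^ e.card}).comap φ' := by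
        rw [Ideal.span_le]
        rintro _ ⟨e', he', rfl⟩
        rw [SetLike.mem_coe, Ideal.mem_comap, c3]
        by_cases h : e' = e
        · rw [h, c5]; exact Ideal.mem_span_singleton_self _
        · rw [c4 e' he' h]; exact zero_mem _
      have c8 : IsLocalRing.maximalIdeal A
          * Ideal.span ((fun e => α (fe k univ e)) '' (E : Set (Finset (Fin n))))
          ⊔ Ideal.span ((fun e => α (fe k univ e)) '' (s : Set (Finset (Fin n))))
          ≤ (Ideal.span {PowerSeries.X * PowerSeries.X ^ e.card}).comap φ' := by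
        apply sup_le
        · rw [← Ideal.span_singleton_mul_span_singleton]
          exact (Ideal.mul_mono c6 c7).trans (Ideal.le_comap_mul φ')
        · rw [Ideal.span_le]
          rintro _ ⟨e', he', rfl⟩
          rw [SetLike.mem_coe, Ideal.mem_comap, c3, c4 e' (hs he') (fun h => hes (h ▸ he'))]
          exact zero_mem _
      have c9 := c8 h
      rw [Ideal.mem_comap, c3, c5, Ideal.mem_span_singleton, ← pow_succ',
        PowerSeries.X_pow_dvd_iff] at c9
      simpa using c9 e.card (Nat.lt_succ_self _)) s hs e he hes (α x) (by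
      rw [e1, ← map_mul]
      exact Ideal.mem_map_of_mem _ hx)
  rw [e1, IsLocalization.algebraMap_mem_map_algebraMap_iff m.primeCompl] at h3
  obtain ⟨t, ht, h3⟩ := h3
  refine mem_of_unit (tw k (fun _ => 1)) _ _ (tw_eval _) (fun e _ => ⟨_, tw_fe e⟩) t x ?_ h3
  have : (Polynomial.constantCoeff).comp (tw k (fun _ : Fin n × Fin d => 1))
      = C.comp constantCoeff := by
    apply MvPolynomial.ringHom_ext
    · intro r; simp [tw]
    · intro v; simp [tw, Polynomial.coeff_monomial]
  have h4 : (tw k (fun _ => 1) t).coeff 0 = C (constantCoeff t) := RingHom.congr_fun this t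
  rw [h4]
  exact (Ne.isUnit ht).map C

/-- Being a complete intersection persists from `d` to `d + 1` for LSS ideals of clutters. -/
theorem result (k : Type) [Field k] (n : ℕ) (E : Finset (Finset (Fin n)))
    (hne : ∀ e ∈ E, e.Nonempty) (hcl : ∀ e ∈ E, ∀ e' ∈ E, e ⊆ e' → e = e')
    (d : ℕ) (hd : 1 ≤ d)
    (hC : ∃ g : List (MvPolynomial (Fin n × Fin d) k),
      RingTheory.Sequence.IsRegular (MvPolynomial (Fin n × Fin d) k) g ∧
      Ideal.ofList g = Ideal.span {f : MvPolynomial (Fin n × Fin d) k |
        ∃ e ∈ E, f = ∑ l : Fin d, ∏ i ∈ e, X (i, l)}) :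
    ∃ g : List (MvPolynomial (Fin n × Fin (d + 1)) k),
      RingTheory.Sequence.IsRegular (MvPolynomial (Fin n × Fin (d + 1)) k) g ∧
      Ideal.ofList g = Ideal.span {f : MvPolynomial (Fin n × Fin (d + 1)) k |
        ∃ e ∈ E, f = ∑ l : Fin (d + 1), ∏ i ∈ e, X (i, l)} := by
  rw [PrimePersist.span_eq] at hC ⊢
  obtain ⟨g, g1, g2⟩ := hC
  have h0 := nzd E hne hcl hd g g1.toIsWeaklyRegular g2
  let ι0 : MvPolynomial (Fin n × Fin d) k →+* MvPolynomial (Fin n × Fin (d + 1)) k :=
    eval₂Hom C (fun p => X (p.1, p.2.castSucc))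
  let j : Finset (Fin n) → MvPolynomial (Fin n × Fin (d + 1)) k := fun e => ι0 (fe k univ e)
  have hj : ∀ e, j e = ∑ l : Fin d, mono k e l.castSucc := by
    intro e
    simp [j, ι0, fe, mono]
  have hf : ∀ e, fe k univ e = j e + mono k e (Fin.last d) := by
    intro e
    rw [hj, fe, Fin.sum_univ_castSucc]
  let ρ : MvPolynomial (Fin n × Fin (d + 1)) k →+*
      MvPolynomial (Fin n) (MvPolynomial (Fin n × Fin d) k) :=
    eval₂Hom (C.comp C) (fun p => Fin.lastCases (X p.1) (fun l => C (X (p.1, l))) p.2)
  let σ : MvPolynomial (Fin n) (MvPolynomial (Fin n × Fin d) k) →+*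
      MvPolynomial (Fin n × Fin (d + 1)) k := eval₂Hom ι0 (fun i => X (i, Fin.last d))
  have h1 : σ.comp ρ = RingHom.id _ := by
    apply MvPolynomial.ringHom_ext
    · intro r; simp [σ, ρ, ι0]
    · rintro ⟨i, l⟩
      induction l using Fin.lastCases <;> simp [σ, ρ, ι0]
  have h2 : ρ.comp ι0 = C := by
    apply MvPolynomial.ringHom_ext
    · intro r; simp [ρ, ι0]
    · rintro ⟨i, l⟩; simp [ρ, ι0]
  have h3 : σ.comp C = ι0 := RingHom.ext (fun r => by simp [σ])
  have h4 : ∀ s : Finset (Finset (Fin n)), Ideal.span (j '' (s : Set (Finset (Fin n))))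
      = (Ideal.span (fe k (univ : Finset (Fin d)) '' (s : Set (Finset (Fin n))))).map ι0 := by
    intro s
    rw [Ideal.map_span, Set.image_image]
  let w : Fin n × Fin (d + 1) → ℕ := fun p => if p.2 = Fin.last d then 0 else 1
  have t1 : ∀ e, tw k w (fe k univ e) = Polynomial.monomial e.card (j e)
      + Polynomial.monomial 0 (mono k e (Fin.last d)) := by
    intro e
    rw [hf, map_add, tw_mono, hj, map_sum, map_sum]
    congr 1
    · apply sum_congr rfl
      intro l _
      rw [tw_mono]
      simp [w, (Fin.castSucc_lt_last l).ne]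
    · simp [w]
  have t2 : ∀ e ∈ E, (tw k w (fe k univ e)).coeff e.card = j e := by
    intro e he
    rw [t1, Polynomial.coeff_add, Polynomial.coeff_monomial_same, Polynomial.coeff_monomial,
      if_neg (hne e he).card_ne_zero.symm, add_zero]
  have t3 : ∀ s : Finset (Finset (Fin n)), s ⊆ E →
      (fun e => (tw k w (fe k univ e)).coeff e.card) '' (s : Set (Finset (Fin n))) = j '' s :=
    fun s hs => Set.image_congr (fun e he => t2 e (hs he))
  obtain ⟨l, l1, l2⟩ := reg_list (fe k (univ : Finset (Fin (d + 1)))) E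
    (degen_nzd (tw k w) (fe k univ) (fun e => (tw k w (fe k univ e)).coeff e.card) card
      (tw_eval w) (tw_hom w) (fun e => by
        rw [t1]
        exact (Polynomial.natDegree_add_le _ _).trans (max_le (Polynomial.natDegree_monomial_le _)
          ((Polynomial.natDegree_monomial_le _).trans (Nat.zero_le _)))) (fun _ => rfl) E
      (fun s hs e he hes x hx => by
        rw [t3 s hs, h4] at hx ⊢
        rw [t2 e he] at hx
        have k1 := Ideal.mem_map_of_mem ρ hx
        rw [Ideal.map_map, h2, map_mul, show ρ (j e) = C (fe k univ e) from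
          RingHom.congr_fun h2 _, mem_map_C_iff] at k1
        have k2 := Ideal.mem_map_of_mem σ (mem_map_C_iff.2 (fun m => h0 s hs e he hes
          ((ρ x).coeff m) (by rw [← coeff_C_mul]; exact k1 m)))
        rwa [Ideal.map_map, h3, show σ (ρ x) = x from RingHom.congr_fun h1 x] at k2)
      (fun e he h => by
        beta_reduce at h
        rw [t2 e he] at h
        have k1 : C (fe k univ e) = ρ (j e) := (RingHom.congr_fun h2 _).symm
        rw [h, map_zero, C_eq_zero] at k1
        have := pt_one (k := k) univ e (⟨0, hd⟩ : Fin d) (hne e he) (mem_univ _)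
        rw [k1, map_zero] at this
        exact zero_ne_one this)) E subset_rfl
  refine ⟨l, ⟨l1, fun h => ?_⟩, l2⟩
  rw [l2, smul_eq_mul, Ideal.mul_top] at h
  refine not_mem (constantCoeff (R := k)) _ ?_ 1 (map_one _) (h ▸ Submodule.mem_top)
  rintro _ ⟨e, he, rfl⟩
  exact const_fe e (hne e he)

end Pool.Agent.Results.MP_3122b6_ag.CIPersist
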